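import Pool.Agent.helper15.XE.SpecL
import Pool.Agent.helper85.BVP.Tau

/-! # Row xe:TYI (MP_5628fe_nt) -/

set_option autoImplicit false

namespace Pool.Agent.XE

open Finset ArithmeticFunction
open Pool.Agent.EC (tri TL wt mt Adm edg mnf tI tII tyI cvl KK yN UN)
open Pool.Agent.CH (rgh Mo ClP ClB)
open GD (kp ks)

private lemma TYI_pow (a : ℕ) (c η : ℝ) (hη : 0 < η) : ∃ N₀ : ℕ, ∀ N : ℕ, N₀ ≤ N →
    c * Real.log N ^ a ≤ (N : ℝ) ^ η := by
  have h1 := isLittleO_log_rpow_rpow_atTop (a : ℝ) hη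
  have h2 := h1.bound (show (0 : ℝ) < 1 / (|c| + 1) by positivity)
  have h3 := (tendsto_natCast_atTop_atTop (R := ℝ)).eventually h2
  obtain ⟨N₀, hN₀⟩ := Filter.eventually_atTop.1 h3
  refine ⟨max N₀ 1, fun N hN => ?_⟩
  have h4 := hN₀ N (le_trans (le_max_left _ _) hN)
  have hN1 : (1 : ℝ) ≤ N := by exact_mod_cast le_trans (le_max_right _ _) hN
  have hL : 0 ≤ Real.log N := Real.log_nonneg hN1
  rw [Real.rpow_natCast, Real.norm_of_nonneg (pow_nonneg hL a),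
    Real.norm_of_nonneg (Real.rpow_nonneg (by positivity) η)] at h4
  have h5 : c * Real.log N ^ a ≤ (|c| + 1) * Real.log N ^ a :=
    mul_le_mul_of_nonneg_right (by linarith [le_abs_self c]) (pow_nonneg hL a)
  refine h5.trans ?_
  rw [one_div, ← div_eq_inv_mul, le_div_iff₀ (by positivity)] at h4
  linarith

private lemma TYI_rgh_mul (y : ℝ) (a b : ℕ) : rgh y (a * b) ↔ rgh y a ∧ rgh y b := by
  unfold Pool.Agent.CH.rgh
  constructor
  · rintro ⟨h1, h2⟩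
    exact ⟨⟨fun h => h1 (by rw [h, zero_mul]), fun p hp hpa => h2 p hp (hpa.mul_right b)⟩,
      ⟨fun h => h1 (by rw [h, mul_zero]), fun p hp hpb => h2 p hp (hpb.mul_left a)⟩⟩
  · rintro ⟨⟨h1, h2⟩, h3, h4⟩
    refine ⟨mul_ne_zero h1 h3, fun p hp hpab => ?_⟩
    rcases (hp.dvd_mul).1 hpab with h | h
    · exact h2 p hp h
    · exact h4 p hp h

private lemma TYI_cop (r : ℕ → ℕ) (hr : ClP r ∨ ClB r) (m : ℕ) (hm : 0 < m) (h30 : Nat.Coprime m 30) :
    Nat.Coprime (r m) (30 * m) := by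
  have h3 : Nat.gcd (r m) m ∣ 6 → Nat.gcd (r m) m = 1 := by
    intro h3
    have h4 : Nat.gcd (r m) m ∣ Nat.gcd m 30 :=
      Nat.dvd_gcd (Nat.gcd_dvd_right _ _) (h3.trans (by norm_num))
    rw [h30] at h4
    exact Nat.dvd_one.mp h4
  rcases hr with hr | hr
  · obtain ⟨h1, h2⟩ := hr m hm h30
    refine Nat.Coprime.mul_right ?_ ?_
    · have h3 : Nat.gcd (r m) 30 = Nat.gcd 1 30 := h1.gcd_eq
      rw [Nat.Coprime, h3]
      norm_num
    · apply h3
      have h4 : Nat.gcd (r m) m ∣ r m + 6 := (Nat.gcd_dvd_right _ _).trans h2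
      exact (Nat.dvd_add_right (Nat.gcd_dvd_left _ _)).mp h4
  · obtain ⟨h1, h2⟩ := hr m hm h30
    refine Nat.Coprime.mul_right ?_ ?_
    · have h3 : Nat.gcd (r m) 30 = Nat.gcd 7 30 := h1.gcd_eq
      rw [Nat.Coprime, h3]
      norm_num
    · apply h3
      have h4 : Nat.gcd (r m) m = Nat.gcd 6 m := h2.gcd_eq
      rw [h4]
      exact Nat.gcd_dvd_left _ _

open Classical in
/-- the coefficients on the rough `d ≤ U` -/
private noncomputable def TYI_x (N U : ℕ) (ξ : ℕ → ℝ) (d : ℕ) : ℝ := if rgh (yN N) d ∧ d ≤ U then ξ d else 0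

/-- the sieve weight -/
private noncomputable def TYI_mu (D : Finset ℕ) (c : ℕ) : ℝ := ∑ e ∈ D with e ∣ c, ((ArithmeticFunction.moebius e : ℤ) : ℝ)

/-- the smooth part of the type I function -/
private noncomputable def TYI_S (N U h : ℕ) (ξ : ℕ → ℝ) (D : Finset ℕ) (X : ℝ) (j : ℕ) : ℝ :=
  ∑ d ∈ j.divisors.filter (fun d : ℕ => (d : ℝ) ≤ X),
    TYI_x N U ξ d * (∑ e ∈ D with e ∣ j / d, ((ArithmeticFunction.moebius e : ℤ) : ℝ)) * Real.log ((j / d : ℕ) : ℝ) ^ h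

private lemma TYI_xle (N U : ℕ) (ξ : ℕ → ℝ) (B : ℝ) (hB : 0 ≤ B) (hξ : ∀ d, d ≤ U → |ξ d| ≤ B) (d : ℕ) :
    |TYI_x N U ξ d| ≤ B := by
  unfold TYI_x
  split_ifs with h
  · exact hξ d h.2
  · rw [abs_zero]
    exact hB

/-- the error of the sieve, one `j` -/
private lemma TYI_err (N U h : ℕ) (ξ : ℕ → ℝ) (D D' : Finset ℕ) (B Lg : ℝ) (hB : 0 ≤ B)
    (hξ : ∀ d, d ≤ U → |ξ d| ≤ B)
    (hD : ∀ c : ℕ, 1 ≤ c →
      (rgh (yN N) c → |1 - ∑ e ∈ D with e ∣ c, ((moebius e : ℤ) : ℝ)| ≤ #(D'.filter fun e => e ∣ c)) ∧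
      (¬ rgh (yN N) c → |∑ e ∈ D with e ∣ c, ((moebius e : ℤ) : ℝ)| ≤ #(D'.filter fun e => e ∣ c)))
    (j : ℕ) (hj : 1 ≤ j) (hLg : ∀ d : ℕ, Real.log ((j / d : ℕ) : ℝ) ^ h ≤ Lg) :
    |tyI N U h ξ j - TYI_S N U h ξ D U j| ≤
      B * Lg * ∑ d ∈ j.divisors with d ≤ U, (#(D'.filter fun e => e ∣ j / d) : ℝ) := by
  classical
  have hlog : ∀ c : ℕ, 0 ≤ Real.log ((c : ℕ) : ℝ) ^ h := fun c => pow_nonneg (Real.log_natCast_nonneg c) h
  have hset : j.divisors.filter (fun d : ℕ => (d : ℝ) ≤ (U : ℝ)) = j.divisors.filter (fun d => d ≤ U) := by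
    refine Finset.filter_congr fun d _ => ?_
    exact Nat.cast_le
  have e1 : tyI N U h ξ j = ∑ d ∈ j.divisors with d ≤ U, TYI_x N U ξ d *
      (if rgh (yN N) (j / d) then (1 : ℝ) else 0) * Real.log ((j / d : ℕ) : ℝ) ^ h := by
    unfold tyI
    split_ifs with hr
    · refine sum_congr rfl fun d hd => ?_
      rw [mem_filter, Nat.mem_divisors] at hd
      have h1 : d * (j / d) = j := Nat.mul_div_cancel' hd.1.1
      have h2 := (TYI_rgh_mul (yN N) d (j / d)).1 (by rw [h1]; exact hr)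
      unfold TYI_x
      rw [if_pos ⟨h2.1, hd.2⟩, if_pos h2.2, mul_one]
    · symm
      refine sum_eq_zero fun d hd => ?_
      rw [mem_filter, Nat.mem_divisors] at hd
      have h1 : d * (j / d) = j := Nat.mul_div_cancel' hd.1.1
      unfold TYI_x
      by_cases h2 : rgh (yN N) d
      · have h3 : ¬ rgh (yN N) (j / d) := fun h3 => hr (by
          have := (TYI_rgh_mul (yN N) d (j / d)).2 ⟨h2, h3⟩
          rwa [h1] at this)
        rw [if_neg h3, mul_zero, zero_mul]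
      · rw [if_neg (fun h' => h2 h'.1), zero_mul, zero_mul]
  rw [e1]
  unfold TYI_S
  rw [hset, ← sum_sub_distrib, mul_sum]
  refine (abs_sum_le_sum_abs _ _).trans (sum_le_sum fun d hd => ?_)
  rw [mem_filter, Nat.mem_divisors] at hd
  have hd0 : 0 < d := Nat.pos_of_dvd_of_pos hd.1.1 hj
  have hc1 : 1 ≤ j / d := Nat.div_pos (Nat.le_of_dvd hj hd.1.1) hd0
  rw [← sub_mul, ← mul_sub, abs_mul, abs_mul, abs_of_nonneg (hlog _)]
  have h5 : |(if rgh (yN N) (j / d) then (1 : ℝ) else 0) - ∑ e ∈ D with e ∣ j / d, ((moebius e : ℤ) : ℝ)| ≤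
      #(D'.filter fun e => e ∣ j / d) := by
    split_ifs with hr
    · exact (hD (j / d) hc1).1 hr
    · rw [zero_sub, abs_neg]
      exact (hD (j / d) hc1).2 hr
  calc |TYI_x N U ξ d| * |(if rgh (yN N) (j / d) then (1 : ℝ) else 0) -
        ∑ e ∈ D with e ∣ j / d, ((moebius e : ℤ) : ℝ)| * Real.log ((j / d : ℕ) : ℝ) ^ h
      ≤ B * (#(D'.filter fun e => e ∣ j / d) : ℝ) * Lg := by
        refine mul_le_mul (mul_le_mul (TYI_xle N U ξ B hB hξ d) h5 (abs_nonneg _) hB) (hLg d) (hlog _) (by positivity)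
    _ = _ := by ring

/-- the part `d > X` is a convolution -/
private lemma TYI_cvl (N U h : ℕ) (ξ : ℕ → ℝ) (D : Finset ℕ) (X : ℝ) (j : ℕ)
    (hX : ∀ d ∈ j.divisors, d ≤ U → X ≤ ((j / d : ℕ) : ℝ)) :
    TYI_S N U h ξ D U j = TYI_S N U h ξ D X j +
      cvl (fun d => if X < (d : ℝ) then TYI_x N U ξ d else 0)
        (fun c => if X ≤ (c : ℝ) then (∑ e ∈ D with e ∣ c, ((ArithmeticFunction.moebius e : ℤ) : ℝ)) *
          Real.log (c : ℝ) ^ h else 0) j := by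
  unfold TYI_S cvl
  rw [Nat.sum_divisorsAntidiagonal (fun a b => (if X < (a : ℝ) then TYI_x N U ξ a else 0) *
    (if X ≤ (b : ℝ) then (∑ e ∈ D with e ∣ b, ((ArithmeticFunction.moebius e : ℤ) : ℝ)) * Real.log (b : ℝ) ^ h else 0)),
    sum_filter, sum_filter, ← sum_add_distrib]
  refine sum_congr rfl fun d hd => ?_
  by_cases hU : d ≤ U
  · have h1 : (d : ℝ) ≤ (U : ℝ) := by exact_mod_cast hU
    rw [if_pos h1]
    by_cases h2 : (d : ℝ) ≤ X
    · rw [if_pos h2, if_neg (not_lt.2 h2), zero_mul, add_zero]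
    · rw [if_neg h2, if_pos (not_le.1 h2), if_pos (hX d hd hU), zero_add]
      ring
  · have h1 : ¬ (d : ℝ) ≤ (U : ℝ) := by
      intro h
      exact hU (by exact_mod_cast h)
    have h0 : TYI_x N U ξ d = 0 := by
      unfold TYI_x
      rw [if_neg (fun h => hU h.2)]
    rw [if_neg h1, h0]
    split_ifs <;> simp

/-- the triangle inequality over the windows -/
private lemma TYI_V (N : ℕ) (V : Finset ℝ) (S : Finset ℕ) (F : ℕ → ℝ) (K : ℕ → ℕ → ℝ) (Bd : ℝ)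
    (hb : ∀ v ∈ V, ∑ m ∈ S, |∑ j ∈ Z3 N, F j * wv N v j * K m j| ≤ Bd) :
    ∑ m ∈ S, |∑ j ∈ Z3 N, F j * fV N V j * K m j| ≤ #V * Bd := by
  have h1 : ∀ m ∈ S, |∑ j ∈ Z3 N, F j * fV N V j * K m j| ≤ ∑ v ∈ V, |∑ j ∈ Z3 N, F j * wv N v j * K m j| := by
    intro m _
    have h2 : ∑ j ∈ Z3 N, F j * fV N V j * K m j = ∑ v ∈ V, ∑ j ∈ Z3 N, F j * wv N v j * K m j := by
      rw [sum_comm]
      refine sum_congr rfl fun j _ => ?_
      unfold fV
      rw [mul_sum, sum_mul]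
    rw [h2]
    exact abs_sum_le_sum_abs _ _
  refine (sum_le_sum h1).trans ?_
  rw [sum_comm]
  refine (sum_le_sum hb).trans ?_
  rw [sum_const, nsmul_eq_mul]

/-- the square mean of the second coefficients -/
private lemma TYI_beta (D : Finset ℕ) (h Y : ℕ) (X L : ℝ) (hh : h ≤ 1) (hL : 20 ≤ L)
    (hY : Real.log (Y : ℝ) ≤ 4 * L + 1) (hL0 : 0 ≤ Real.log (Y : ℝ)) :
    ∑ b ∈ Ioc 0 Y, (if X ≤ (b : ℝ) then (∑ e ∈ D with e ∣ b, ((ArithmeticFunction.moebius e : ℤ) : ℝ)) *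
      Real.log (b : ℝ) ^ h else 0) ^ 2 ≤ Y * L ^ 8 := by
  have hl5 : 1 + Real.log (Y : ℝ) ≤ 5 * L := by linarith
  have h1 : ∀ b ∈ Ioc 0 Y, (if X ≤ (b : ℝ) then (∑ e ∈ D with e ∣ b, ((ArithmeticFunction.moebius e : ℤ) : ℝ)) *
      Real.log (b : ℝ) ^ h else 0) ^ 2 ≤ 25 * L ^ 2 * Pool.Agent.helper85.BVP.tau b ^ 2 := by
    intro b hb
    rw [mem_Ioc] at hb
    have hb1 : (1 : ℝ) ≤ b := by exact_mod_cast hb.1
    have hlb : Real.log (b : ℝ) ≤ 5 * L := by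
      have : Real.log (b : ℝ) ≤ Real.log (Y : ℝ) := Real.log_le_log (by linarith) (by exact_mod_cast hb.2)
      linarith
    have hlb0 : 0 ≤ Real.log (b : ℝ) := Real.log_nonneg hb1
    have hlh : Real.log (b : ℝ) ^ h ≤ 5 * L := by
      interval_cases h
      · simp; linarith
      · simpa using hlb
    have hlh0 : 0 ≤ Real.log (b : ℝ) ^ h := pow_nonneg hlb0 h
    have hmu : |∑ e ∈ D with e ∣ b, ((ArithmeticFunction.moebius e : ℤ) : ℝ)| ≤ Pool.Agent.helper85.BVP.tau b := by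
      refine (abs_sum_le_sum_abs _ _).trans ?_
      have e1 : ∀ e ∈ D.filter (fun e => e ∣ b), |((ArithmeticFunction.moebius e : ℤ) : ℝ)| ≤ 1 := by
        intro e _
        rw [← Int.cast_abs]
        exact_mod_cast abs_moebius_le_one
      refine (sum_le_sum e1).trans ?_
      rw [sum_const, nsmul_eq_mul, mul_one]
      unfold Pool.Agent.helper85.BVP.tau
      have e2 : #(D.filter (fun e => e ∣ b)) ≤ #b.divisors := by
        refine card_le_card fun e he => ?_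
        rw [mem_filter] at he
        rw [Nat.mem_divisors]
        exact ⟨he.2, by omega⟩
      exact_mod_cast e2
    have ht0 : 0 ≤ Pool.Agent.helper85.BVP.tau b := Pool.Agent.helper85.BVP.tau_nonneg b
    split_ifs
    · rw [← sq_abs, abs_mul, abs_of_nonneg hlh0]
      have e3 : |∑ e ∈ D with e ∣ b, ((ArithmeticFunction.moebius e : ℤ) : ℝ)| * Real.log (b : ℝ) ^ h ≤
          Pool.Agent.helper85.BVP.tau b * (5 * L) := mul_le_mul hmu hlh hlh0 ht0
      calc (|∑ e ∈ D with e ∣ b, ((ArithmeticFunction.moebius e : ℤ) : ℝ)| * Real.log (b : ℝ) ^ h) ^ 2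
          ≤ (Pool.Agent.helper85.BVP.tau b * (5 * L)) ^ 2 := pow_le_pow_left₀ (by positivity) e3 2
        _ = _ := by ring
    · have : (0 : ℝ) ≤ 25 * L ^ 2 * Pool.Agent.helper85.BVP.tau b ^ 2 := by positivity
      simpa using this
  refine (sum_le_sum h1).trans ?_
  rw [← mul_sum]
  have h2 := Pool.Agent.helper85.BVP.sum_tau_sq_le Y
  have h3 : (Y : ℝ) * (1 + Real.log Y) ^ 3 ≤ Y * (5 * L) ^ 3 := by
    refine mul_le_mul_of_nonneg_left ?_ (Nat.cast_nonneg _)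
    exact pow_le_pow_left₀ (by linarith) hl5 3
  have hY0 : (0 : ℝ) ≤ Y := Nat.cast_nonneg _
  calc 25 * L ^ 2 * ∑ n ∈ Ioc 0 Y, Pool.Agent.helper85.BVP.tau n ^ 2 ≤ 25 * L ^ 2 * (Y * (5 * L) ^ 3) :=
        mul_le_mul_of_nonneg_left (h2.trans h3) (by positivity)
    _ = Y * L ^ 5 * 3125 := by ring
    _ ≤ Y * L ^ 5 * L ^ 3 := by
        refine mul_le_mul_of_nonneg_left ?_ (by positivity)
        calc (3125 : ℝ) ≤ 20 ^ 3 := by norm_num
          _ ≤ L ^ 3 := pow_le_pow_left₀ (by norm_num) hL 3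
    _ = Y * L ^ 8 := by ring

/-- the final inequality -/
private lemma TYI_fin (A B C : ℕ) (x L I : ℝ) (hx : 1 ≤ x) (hL : 20 ≤ L) (hI : I ≤ 3 * L)
    (hP1 : 18 * L ^ (A + C + 1) ≤ x ^ (39 / 2000 : ℝ)) (hP2 : 16200 * L ^ (A + 2 * B + 1) ≤ x ^ (1 / 2000 : ℝ))
    (hP3 : 18 * L ^ (A + 1) ≤ x ^ (1 / 10000 : ℝ)) :
    I * (x * L ^ C * (x ^ (49 / 100 : ℝ)) ^ 2 * x ^ (1 / 2000 : ℝ) +
      (x ^ (67 / 200 : ℝ) * (30 * x ^ (104 / 125 : ℝ) * L ^ B) ^ 2 * x ^ (1 / 2000 : ℝ) +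
        x ^ (2 - 1 / 10000 : ℝ))) + 5 * L ^ 3 * (x ^ 2 / L ^ (A + 4)) ≤ x ^ 2 / L ^ A := by
  have x0 : 0 < x := by linarith
  have L0 : 0 < L := by linarith
  have hLA : 0 < L ^ A := pow_pos L0 A
  have e2 : x ^ 2 = x ^ (2 : ℝ) := by norm_num
  have t1 : 3 * L * (x * L ^ C * (x ^ (49 / 100 : ℝ)) ^ 2 * x ^ (1 / 2000 : ℝ)) ≤ x ^ 2 / L ^ A / 6 := by
    rw [div_div, le_div_iff₀ (by positivity)]
    have e3 : (x ^ (49 / 100 : ℝ)) ^ 2 = x ^ (98 / 100 : ℝ) := by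
      rw [← Real.rpow_natCast, ← Real.rpow_mul x0.le]
      norm_num
    rw [e3]
    calc 3 * L * (x * L ^ C * x ^ (98 / 100 : ℝ) * x ^ (1 / 2000 : ℝ)) * (L ^ A * 6) =
          (x * x ^ (98 / 100 : ℝ) * x ^ (1 / 2000 : ℝ)) * (18 * L ^ (A + C + 1)) := by ring
      _ ≤ (x * x ^ (98 / 100 : ℝ) * x ^ (1 / 2000 : ℝ)) * x ^ (39 / 2000 : ℝ) :=
          mul_le_mul_of_nonneg_left hP1 (by positivity)
      _ = x ^ (1 : ℝ) * x ^ (98 / 100 : ℝ) * x ^ (1 / 2000 : ℝ) * x ^ (39 / 2000 : ℝ) := by rw [Real.rpow_one]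
      _ = x ^ 2 := by
          rw [← Real.rpow_add x0, ← Real.rpow_add x0, ← Real.rpow_add x0, e2]
          norm_num
  have t2 : 3 * L * (x ^ (67 / 200 : ℝ) * (30 * x ^ (104 / 125 : ℝ) * L ^ B) ^ 2 * x ^ (1 / 2000 : ℝ)) ≤
      x ^ 2 / L ^ A / 6 := by
    rw [div_div, le_div_iff₀ (by positivity)]
    have e3 : (x ^ (104 / 125 : ℝ)) ^ 2 = x ^ (208 / 125 : ℝ) := by
      rw [← Real.rpow_natCast, ← Real.rpow_mul x0.le]
      norm_num
    calc 3 * L * (x ^ (67 / 200 : ℝ) * (30 * x ^ (104 / 125 : ℝ) * L ^ B) ^ 2 * x ^ (1 / 2000 : ℝ)) * (L ^ A * 6) =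
          (x ^ (67 / 200 : ℝ) * (x ^ (104 / 125 : ℝ)) ^ 2 * x ^ (1 / 2000 : ℝ)) * (16200 * L ^ (A + 2 * B + 1)) := by ring
      _ ≤ (x ^ (67 / 200 : ℝ) * (x ^ (104 / 125 : ℝ)) ^ 2 * x ^ (1 / 2000 : ℝ)) * x ^ (1 / 2000 : ℝ) :=
          mul_le_mul_of_nonneg_left hP2 (by positivity)
      _ = x ^ 2 := by
          rw [e3, ← Real.rpow_add x0, ← Real.rpow_add x0, ← Real.rpow_add x0, e2]
          norm_num
  have t3 : 3 * L * x ^ (2 - 1 / 10000 : ℝ) ≤ x ^ 2 / L ^ A / 6 := by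
    rw [div_div, le_div_iff₀ (by positivity)]
    calc 3 * L * x ^ (2 - 1 / 10000 : ℝ) * (L ^ A * 6) = x ^ (2 - 1 / 10000 : ℝ) * (18 * L ^ (A + 1)) := by ring
      _ ≤ x ^ (2 - 1 / 10000 : ℝ) * x ^ (1 / 10000 : ℝ) := mul_le_mul_of_nonneg_left hP3 (by positivity)
      _ = x ^ 2 := by
          rw [← Real.rpow_add x0, e2]
          norm_num
  have t4 : 5 * L ^ 3 * (x ^ 2 / L ^ (A + 4)) ≤ x ^ 2 / L ^ A / 4 := by
    have e4 : 5 * L ^ 3 * (x ^ 2 / L ^ (A + 4)) = (x ^ 2 / L ^ A) * (5 / L) := by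
      rw [pow_add]
      field_simp
    rw [e4, div_eq_mul_one_div (x ^ 2 / L ^ A) 4]
    refine mul_le_mul_of_nonneg_left ?_ (by positivity)
    rw [div_le_div_iff₀ L0 (by norm_num)]
    linarith
  have t5 : I * (x * L ^ C * (x ^ (49 / 100 : ℝ)) ^ 2 * x ^ (1 / 2000 : ℝ) +
      (x ^ (67 / 200 : ℝ) * (30 * x ^ (104 / 125 : ℝ) * L ^ B) ^ 2 * x ^ (1 / 2000 : ℝ) +
        x ^ (2 - 1 / 10000 : ℝ))) ≤ 3 * L * (x * L ^ C * (x ^ (49 / 100 : ℝ)) ^ 2 * x ^ (1 / 2000 : ℝ) +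
      (x ^ (67 / 200 : ℝ) * (30 * x ^ (104 / 125 : ℝ) * L ^ B) ^ 2 * x ^ (1 / 2000 : ℝ) +
        x ^ (2 - 1 / 10000 : ℝ))) := mul_le_mul_of_nonneg_right hI (by positivity)
  have t6 : 0 ≤ x ^ 2 / L ^ A := by positivity
  rw [mul_add, mul_add] at t5
  linarith

theorem TYI (h1 : Pool.Agent.EC.BPS_stmt) (h2 : T1A_stmt) (h3 : T1B_stmt) (h4 : BLM_stmt)
    (h5 : Pool.Agent.EC.KKD_stmt) (h6 : WVB_stmt) : TYI_stmt := by
  intro A B C
  obtain ⟨N₁, hT1A⟩ := h2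
  obtain ⟨A', N₂, hT1B⟩ := h3 (A + 4) B C
  obtain ⟨N₃, hBLM⟩ := h4 8
  obtain ⟨N₄, hN₄12, hWVB⟩ := h6
  obtain ⟨N₅, hBPS⟩ := h1 A' (1 / 5000) (by norm_num)
  obtain ⟨N₆, hP1⟩ := TYI_pow (A + C + 1) 18 (39 / 2000) (by norm_num)
  obtain ⟨N₇, hP2⟩ := TYI_pow (A + 2 * B + 1) 16200 (1 / 2000) (by norm_num)
  obtain ⟨N₈, hP3⟩ := TYI_pow (A + 1) 18 (1 / 10000) (by norm_num)
  obtain ⟨N₉, hP4⟩ := TYI_pow C 1 1 one_pos
  refine ⟨N₁ + N₂ + N₃ + N₄ + N₅ + N₆ + N₇ + N₈ + N₉ + ⌈Real.exp 20⌉₊, ?_⟩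
  intro N hN V hV r hr R hR hRL h ξ hh hξ
  have hP1 := hP1 N (by omega)
  have hP2 := hP2 N (by omega)
  have hP3 := hP3 N (by omega)
  have hP4 := hP4 N (by omega)
  have hT1A := hT1A N (by omega)
  have hT1B := hT1B N (by omega)
  have hBLM := hBLM N (by omega) V hV
  obtain ⟨hW1, hW2⟩ := hWVB N (by omega)
  obtain ⟨D, D', hDD, hDc, hDs⟩ := hBPS N (by omega)
  have hN12 : 12 ≤ N := by omega
  have hx1 : (1 : ℝ) ≤ (N : ℝ) := by exact_mod_cast (by omega : 1 ≤ N)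
  have hx0 : (0 : ℝ) < (N : ℝ) := by linarith
  set L := Real.log N with hLdef
  have hL : 20 ≤ L := by
    rw [hLdef, Real.le_log_iff_exp_le hx0]
    exact (Nat.le_ceil _).trans (by exact_mod_cast (by omega : ⌈Real.exp 20⌉₊ ≤ N))
  have hL0 : 0 < L := by linarith
  set U := UN C N with hU
  have hU1 : (U : ℝ) ≤ N * L ^ C := Nat.floor_le (by positivity)
  have hU2 : 1 ≤ U := by
    rw [hU]
    unfold UN
    refine Nat.le_floor ?_
    have : (1 : ℝ) ≤ L ^ C := one_le_pow₀ (by linarith)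
    rw [← hLdef]
    push_cast
    nlinarith
  have hLC : L ^ C ≤ N := by
    have := hP4
    rw [one_mul, Real.rpow_one] at this
    exact this
  obtain ⟨hVB, hVS, -⟩ := hV
  obtain ⟨-, hfV⟩ := hW2 V hVB hVS
  -- logarithms
  have hlog64 : Real.log (64 : ℝ) ≤ 5 := by
    rw [Real.log_le_iff_le_exp (by norm_num)]
    have : (2.7 : ℝ) ^ 5 ≤ Real.exp 1 ^ 5 := pow_le_pow_left₀ (by norm_num) (by linarith [Real.exp_one_gt_d9]) 5
    rw [← Real.exp_nat_mul] at this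
    have h8 : Real.exp (((5 : ℕ) : ℝ) * 1) = Real.exp 5 := by norm_num
    rw [h8] at this
    refine le_trans ?_ this
    norm_num
  have hlogY : ∀ Y : ℕ, Y ≤ 64 * N ^ 3 → Real.log (Y : ℝ) ≤ 4 * L + 1 ∧ 0 ≤ Real.log (Y : ℝ) := by
    intro Y hY
    refine ⟨?_, Real.log_natCast_nonneg Y⟩
    rcases Nat.eq_zero_or_pos Y with h0 | h0
    · rw [h0, Nat.cast_zero, Real.log_zero]
      linarith
    · have h7 : Real.log (Y : ℝ) ≤ Real.log (64 * (N : ℝ) ^ 3) :=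
        Real.log_le_log (by exact_mod_cast h0) (by exact_mod_cast hY)
      rw [Real.log_mul (by norm_num) (by positivity), Real.log_pow, ← hLdef] at h7
      push_cast at h7
      linarith
  have hlogc : ∀ j ∈ Z3 N, ∀ d : ℕ, Real.log ((j / d : ℕ) : ℝ) ^ h ≤ 5 * L := by
    intro j hj d
    unfold Z3 at hj
    rw [mem_Ioc] at hj
    obtain ⟨g1, g2⟩ := hlogY (j / d) ((Nat.div_le_self _ _).trans hj.2)
    interval_cases h
    · simp; linarith
    · simp; linarith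
  -- the bound for `ξ`
  have hξ2 : ∀ d, |TYI_x N U ξ d| ≤ L ^ 2 := fun d => TYI_xle N U ξ (L ^ 2) (by positivity) hξ d
  -- the error
  have hE : ∑ m ∈ Mo (QV N), |∑ j ∈ Z3 N, (tyI N U h ξ j - TYI_S N U h ξ D U j) * fV N V j *
      KK R (30 * m) (r m) j| ≤ #V * (5 * L ^ 3 * ((N : ℝ) ^ 2 / L ^ (A + 4))) := by
    refine TYI_V N V (Mo (QV N)) (fun j => tyI N U h ξ j - TYI_S N U h ξ D U j)
      (fun m j => KK R (30 * m) (r m) j) _ fun v hv => ?_
    obtain ⟨-, -, -, hw⟩ := hW1 v (hVB v hv)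
    have hb := hT1B v (hVB v hv) r hr R hR hRL D' (fun e he => hDD e (mem_union_right _ he)) hDs
    have g1 : ∀ m ∈ Mo (QV N), |∑ j ∈ Z3 N, (tyI N U h ξ j - TYI_S N U h ξ D U j) * wv N v j *
        KK R (30 * m) (r m) j| ≤ ∑ j ∈ Z3 N, (L ^ 2 * (5 * L) *
          ∑ d ∈ j.divisors with d ≤ U, (#(D'.filter fun e => e ∣ j / d) : ℝ)) * wv N v j *
            |KK R (30 * m) (r m) j| := by
      intro m _
      refine (abs_sum_le_sum_abs _ _).trans (sum_le_sum fun j hj => ?_)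
      have hj1 : 1 ≤ j := (mem_Ioc.1 hj).1
      rw [abs_mul, abs_mul, abs_of_nonneg (hw j).1]
      refine mul_le_mul_of_nonneg_right (mul_le_mul_of_nonneg_right ?_ (hw j).1) (abs_nonneg _)
      exact TYI_err N U h ξ D D' (L ^ 2) (5 * L) (by positivity) hξ hDc j hj1 (hlogc j hj)
    refine (sum_le_sum g1).trans ?_
    rw [sum_comm]
    have g2 : ∑ j ∈ Z3 N, ∑ m ∈ Mo (QV N), (L ^ 2 * (5 * L) *
          ∑ d ∈ j.divisors with d ≤ U, (#(D'.filter fun e => e ∣ j / d) : ℝ)) * wv N v j *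
            |KK R (30 * m) (r m) j| = 5 * L ^ 3 * ∑ j ∈ Z3 N,
              (∑ d ∈ j.divisors with d ≤ UN C N, (#(D'.filter fun e => e ∣ j / d) : ℝ)) * wv N v j *
                ∑ m ∈ Mo (QV N), |KK R (30 * m) (r m) j| := by
      rw [mul_sum]
      refine sum_congr rfl fun j _ => ?_
      rw [← mul_sum, ← hU]
      ring
    rw [g2]
    exact mul_le_mul_of_nonneg_left hb (by positivity)
  -- the dyadic decomposition
  set K₀ : ℕ := ⌊30 * QV N⌋₊ with hK₀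
  set I : ℕ := Nat.clog 2 K₀ with hI
  have hQ1 : 1 ≤ QV N := Real.one_le_rpow hx1 (by norm_num)
  have hQN : QV N ≤ N := by
    unfold QV
    calc (N : ℝ) ^ (104 / 125 : ℝ) ≤ (N : ℝ) ^ (1 : ℝ) := Real.rpow_le_rpow_of_exponent_le hx1 (by norm_num)
      _ = N := Real.rpow_one _
  have hK₀le : (K₀ : ℝ) ≤ 30 * QV N := Nat.floor_le (by positivity)
  have hK₀2 : 1 < K₀ := by
    have : 30 ≤ K₀ := Nat.le_floor (by push_cast; linarith)
    omega
  have hK₀I : K₀ ≤ 2 ^ I := Nat.le_pow_clog (by norm_num) K₀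
  have hIK : 2 ^ (I - 1) < K₀ := Nat.pow_pred_clog_lt_self (by norm_num) hK₀2
  have h2i : ∀ i ∈ range I, ((2 ^ i * R : ℕ) : ℝ) ≤ 30 * QV N * L ^ B := by
    intro i hi
    rw [mem_range] at hi
    have g1 : 2 ^ i ≤ K₀ := (Nat.pow_le_pow_right (by norm_num) (by omega)).trans hIK.le
    have g2 : ((2 ^ i : ℕ) : ℝ) ≤ 30 * QV N := le_trans (by exact_mod_cast g1) hK₀le
    rw [Nat.cast_mul]
    exact mul_le_mul g2 hRL (Nat.cast_nonneg _) (by positivity)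
  have hI3 : (I : ℝ) ≤ 3 * L := by
    have g1 : ((2 ^ (I - 1) : ℕ) : ℝ) ≤ 30 * N := by
      have : ((2 ^ (I - 1) : ℕ) : ℝ) ≤ K₀ := by exact_mod_cast hIK.le
      linarith
    have g2 := Real.log_le_log (by positivity) g1
    rw [Real.log_mul (by norm_num) (by positivity), Nat.cast_pow, Real.log_pow, ← hLdef] at g2
    have g3 : Real.log (30 : ℝ) ≤ 5 := le_trans (Real.log_le_log (by norm_num) (by norm_num)) hlog64
    have g4 : (0.69 : ℝ) ≤ Real.log ((2 : ℕ) : ℝ) := by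
      have := Real.log_two_gt_d9
      push_cast
      linarith
    have g5 : (0 : ℝ) ≤ ((I - 1 : ℕ) : ℝ) := Nat.cast_nonneg _
    have g6 : ((I - 1 : ℕ) : ℝ) * 0.69 ≤ 5 + L :=
      (mul_le_mul_of_nonneg_left g4 g5).trans (g2.trans (by linarith))
    have g7 : (I : ℝ) ≤ ((I - 1 : ℕ) : ℝ) + 1 := by
      have : I ≤ (I - 1) + 1 := by omega
      exact_mod_cast this
    nlinarith
  have hKKD : ∀ m ∈ Mo (QV N), ∀ j, KK R (30 * m) (r m) j = ∑ i ∈ range I, kp (2 ^ i * R) (30 * m) (r m) j := by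
    intro m hm j
    unfold Mo at hm
    rw [mem_filter, mem_Icc] at hm
    have hm1 : (m : ℝ) ≤ QV N := (Nat.le_floor_iff (by linarith)).1 hm.1.2
    refine h5 (30 * m) (r m) R I j (by omega) (TYI_cop r hr m (by omega) hm.2) hR ?_
    have g1 : 30 * m ≤ K₀ := Nat.le_floor (by push_cast; linarith)
    exact (g1.trans hK₀I).trans (Nat.le_mul_of_pos_right _ hR)
  -- one dyadic range
  set b1 : ℝ := N * L ^ C * ((N : ℝ) ^ (49 / 100 : ℝ)) ^ 2 * (N : ℝ) ^ (1 / 2000 : ℝ) with hb1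
  set b2 : ℝ := (N : ℝ) ^ (67 / 200 : ℝ) * (30 * QV N * L ^ B) ^ 2 * (N : ℝ) ^ (1 / 2000 : ℝ) with hb2
  set b3 : ℝ := (N : ℝ) ^ (2 - 1 / 10000 : ℝ) with hb3
  have hb1n : 0 ≤ b1 := by positivity
  have hb2n : 0 ≤ b2 := by positivity
  have hb3n : 0 ≤ b3 := by positivity
  have hVn : (0 : ℝ) ≤ #V := Nat.cast_nonneg _
  have hone : ∀ i ∈ range I, ∑ m ∈ Mo (QV N), |∑ j ∈ Z3 N, TYI_S N U h ξ D U j * fV N V j *
      kp (2 ^ i * R) (30 * m) (r m) j| ≤ #V * (b1 + (b2 + b3)) := by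
    intro i hi
    have hR' : 1 ≤ 2 ^ i * R := Nat.one_le_iff_ne_zero.2 (by positivity)
    have hDD1 : ∀ e ∈ D, 1 ≤ e ∧ (e : ℝ) ≤ (N : ℝ) ^ (1 / 5000 : ℝ) := fun e he => hDD e (mem_union_left _ he)
    have hgen : ∀ X : ℝ, 1 ≤ X → ∑ m ∈ Mo (QV N), |∑ j ∈ Z3 N, TYI_S N U h ξ D X j * fV N V j *
        kp (2 ^ i * R) (30 * m) (r m) j| ≤ #V * (X * ((2 ^ i * R : ℕ) : ℝ) ^ 2 * (N : ℝ) ^ (1 / 2000 : ℝ)) := by
      intro X hX
      refine TYI_V N V (Mo (QV N)) (fun j => TYI_S N U h ξ D X j)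
        (fun m j => kp (2 ^ i * R) (30 * m) (r m) j) _ fun v hv => ?_
      exact hT1A v (hVB v hv) r (2 ^ i * R) hR' D hDD1 h X (TYI_x N U ξ) hh hX hξ2
    by_cases hRi : ((2 ^ i * R : ℕ) : ℝ) ≤ (N : ℝ) ^ (49 / 100 : ℝ)
    · refine (hgen (U : ℝ) (by exact_mod_cast hU2)).trans ?_
      refine mul_le_mul_of_nonneg_left ?_ hVn
      have g1 : (U : ℝ) * ((2 ^ i * R : ℕ) : ℝ) ^ 2 * (N : ℝ) ^ (1 / 2000 : ℝ) ≤ b1 := by
        rw [hb1]
        refine mul_le_mul_of_nonneg_right ?_ (by positivity)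
        exact mul_le_mul hU1 (pow_le_pow_left₀ (Nat.cast_nonneg _) hRi 2) (by positivity) (by positivity)
      linarith
    · have hRi' : (N : ℝ) ^ (49 / 100 : ℝ) ≤ ((2 ^ i * R : ℕ) : ℝ) := (not_le.1 hRi).le
      set X : ℝ := (N : ℝ) ^ (67 / 200 : ℝ) with hX
      have hX1 : 1 ≤ X := Real.one_le_rpow hx1 (by norm_num)
      have hXN : X ≤ N := by
        rw [hX]
        calc (N : ℝ) ^ (67 / 200 : ℝ) ≤ (N : ℝ) ^ (1 : ℝ) := Real.rpow_le_rpow_of_exponent_le hx1 (by norm_num)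
          _ = N := Real.rpow_one _
      set α : ℕ → ℝ := fun d => if X < (d : ℝ) then TYI_x N U ξ d else 0 with hα
      set β : ℕ → ℝ := fun c => if X ≤ (c : ℝ) then (∑ e ∈ D with e ∣ c, ((ArithmeticFunction.moebius e : ℤ) : ℝ)) *
          Real.log (c : ℝ) ^ h else 0 with hβ
      have hsp : ∀ m, ∑ j ∈ Z3 N, TYI_S N U h ξ D U j * fV N V j * kp (2 ^ i * R) (30 * m) (r m) j =
          ∑ j ∈ Z3 N, TYI_S N U h ξ D X j * fV N V j * kp (2 ^ i * R) (30 * m) (r m) j +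
          ∑ j ∈ Z3 N, cvl α β j * fV N V j * kp (2 ^ i * R) (30 * m) (r m) j := by
        intro m
        rw [← sum_add_distrib]
        refine sum_congr rfl fun j hj => ?_
        by_cases hf : fV N V j = 0
        · rw [hf]
          simp
        · have hj3 := ((hfV j).2.2 hf).1
          have g1 : TYI_S N U h ξ D U j = TYI_S N U h ξ D X j + cvl α β j := by
            refine TYI_cvl N U h ξ D X j fun d hd hdU => ?_
            rw [Nat.mem_divisors] at hd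
            have hd0 : 0 < d := Nat.pos_of_dvd_of_pos hd.1 (by omega)
            have hdr : (0 : ℝ) < d := by exact_mod_cast hd0
            rw [Nat.cast_div hd.1 (by positivity), le_div_iff₀ hdr]
            have g2 : (d : ℝ) ≤ N * N := by
              calc (d : ℝ) ≤ U := by exact_mod_cast hdU
                _ ≤ N * L ^ C := hU1
                _ ≤ N * N := mul_le_mul_of_nonneg_left hLC hx0.le
            have g3 : ((N ^ 3 : ℕ) : ℝ) ≤ j := by exact_mod_cast hj3.le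
            push_cast at g3
            calc X * d ≤ N * (N * N) := mul_le_mul hXN g2 hdr.le hx0.le
              _ = (N : ℝ) ^ 3 := by ring
              _ ≤ j := g3
          rw [g1]
          ring
      have hpt : ∑ m ∈ Mo (QV N), |∑ j ∈ Z3 N, TYI_S N U h ξ D U j * fV N V j *
          kp (2 ^ i * R) (30 * m) (r m) j| ≤
          ∑ m ∈ Mo (QV N), |∑ j ∈ Z3 N, TYI_S N U h ξ D X j * fV N V j * kp (2 ^ i * R) (30 * m) (r m) j| +
          ∑ m ∈ Mo (QV N), |∑ j ∈ Z3 N, cvl α β j * fV N V j * kp (2 ^ i * R) (30 * m) (r m) j| := by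
        rw [← sum_add_distrib]
        refine sum_le_sum fun m _ => ?_
        rw [hsp m]
        exact abs_add_le _ _
      refine hpt.trans ?_
      have k1 := hgen X hX1
      have k2 : ∑ m ∈ Mo (QV N), |∑ j ∈ Z3 N, cvl α β j * fV N V j * kp (2 ^ i * R) (30 * m) (r m) j| ≤
          #V * b3 := by
        refine hBLM r (2 ^ i * R) hRi' α β ?_ ?_ ?_ ?_
        · intro a ha
          by_contra hc
          apply ha
          simp only [hα]
          rw [if_neg (fun h' => hc h'.le)]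
        · intro b hb
          by_contra hc
          apply hb
          simp only [hβ]
          rw [if_neg hc]
        · intro Y _
          have g1 : ∀ a ∈ Ioc 0 Y, α a ^ 2 ≤ L ^ 8 := by
            intro a _
            have g2 : |α a| ≤ L ^ 2 := by
              simp only [hα]
              split_ifs
              · exact hξ2 a
              · rw [abs_zero]; positivity
            have g3 : α a ^ 2 ≤ (L ^ 2) ^ 2 := by
              rw [← sq_abs]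
              exact pow_le_pow_left₀ (abs_nonneg _) g2 2
            refine g3.trans ?_
            rw [← pow_mul]
            exact pow_le_pow_right₀ (by linarith) (by norm_num)
          refine (sum_le_sum g1).trans ?_
          rw [sum_const, nsmul_eq_mul, Nat.card_Ioc, Nat.sub_zero]
        · intro Y hY
          obtain ⟨g1, g2⟩ := hlogY Y hY
          exact TYI_beta D h Y X L hh hL g1 g2
      have k3 : X * ((2 ^ i * R : ℕ) : ℝ) ^ 2 * (N : ℝ) ^ (1 / 2000 : ℝ) ≤ b2 := by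
        rw [hb2]
        refine mul_le_mul_of_nonneg_right ?_ (by positivity)
        exact mul_le_mul_of_nonneg_left (pow_le_pow_left₀ (Nat.cast_nonneg _) (h2i i hi) 2) (by positivity)
      calc _ ≤ #V * (X * ((2 ^ i * R : ℕ) : ℝ) ^ 2 * (N : ℝ) ^ (1 / 2000 : ℝ)) + #V * b3 := add_le_add k1 k2
        _ ≤ #V * b2 + #V * b3 := add_le_add (mul_le_mul_of_nonneg_left k3 hVn) le_rfl
        _ ≤ #V * (b1 + (b2 + b3)) := by nlinarith
  -- the main part
  have hM : ∑ m ∈ Mo (QV N), |∑ j ∈ Z3 N, TYI_S N U h ξ D U j * fV N V j * KK R (30 * m) (r m) j| ≤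
      I * (#V * (b1 + (b2 + b3))) := by
    have g1 : ∀ m ∈ Mo (QV N), |∑ j ∈ Z3 N, TYI_S N U h ξ D U j * fV N V j * KK R (30 * m) (r m) j| ≤
        ∑ i ∈ range I, |∑ j ∈ Z3 N, TYI_S N U h ξ D U j * fV N V j * kp (2 ^ i * R) (30 * m) (r m) j| := by
      intro m hm
      have g2 : ∑ j ∈ Z3 N, TYI_S N U h ξ D U j * fV N V j * KK R (30 * m) (r m) j =
          ∑ i ∈ range I, ∑ j ∈ Z3 N, TYI_S N U h ξ D U j * fV N V j * kp (2 ^ i * R) (30 * m) (r m) j := by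
        rw [sum_comm]
        refine sum_congr rfl fun j _ => ?_
        rw [hKKD m hm j, mul_sum]
      rw [g2]
      exact abs_sum_le_sum_abs _ _
    refine (sum_le_sum g1).trans ?_
    rw [sum_comm]
    refine (sum_le_sum hone).trans ?_
    rw [sum_const, card_range, nsmul_eq_mul]
  -- conclusion
  have hsplit : ∑ m ∈ Mo (QV N), |∑ j ∈ Z3 N, tyI N U h ξ j * fV N V j * KK R (30 * m) (r m) j| ≤
      ∑ m ∈ Mo (QV N), |∑ j ∈ Z3 N, TYI_S N U h ξ D U j * fV N V j * KK R (30 * m) (r m) j| +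
      ∑ m ∈ Mo (QV N), |∑ j ∈ Z3 N, (tyI N U h ξ j - TYI_S N U h ξ D U j) * fV N V j *
        KK R (30 * m) (r m) j| := by
    rw [← sum_add_distrib]
    refine sum_le_sum fun m _ => ?_
    have g1 : ∑ j ∈ Z3 N, tyI N U h ξ j * fV N V j * KK R (30 * m) (r m) j =
        ∑ j ∈ Z3 N, TYI_S N U h ξ D U j * fV N V j * KK R (30 * m) (r m) j +
        ∑ j ∈ Z3 N, (tyI N U h ξ j - TYI_S N U h ξ D U j) * fV N V j * KK R (30 * m) (r m) j := by
      rw [← sum_add_distrib]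
      refine sum_congr rfl fun j _ => ?_
      ring
    rw [g1]
    exact abs_add_le _ _
  have hfin := TYI_fin A B C N L I hx1 hL hI3 hP1 hP2 hP3
  refine hsplit.trans ((add_le_add hM hE).trans ?_)
  have hfin2 := mul_le_mul_of_nonneg_left hfin hVn
  refine le_trans (le_of_eq ?_) (hfin2.trans (le_of_eq ?_))
  · rw [hb1, hb2, hb3]
    unfold QV
    ring
  · ring

end Pool.Agent.XE
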